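import Pool.Agent.Helper15.T4.Stmts

set_option autoImplicit false

open Finset

namespace Pool.Agent.Helper8.T4
open Pool.Agent.Helper15.T4

lemma sq7 : (Real.sqrt 7) * (Real.sqrt 7) = 7 := Real.mul_self_sqrt (by norm_num)

lemma nu_re : nu.re = -3 / 8 := by
  unfold nu
  have h : ((-3 + Complex.I * (Real.sqrt 7 : ℂ)) / 8 : ℂ) =
      ((-3 / 8 : ℝ) : ℂ) + ((Real.sqrt 7 / 8 : ℝ) : ℂ) * Complex.I := by
    push_cast
    ring
  rw [h]
  simp

lemma nu_im : nu.im = Real.sqrt 7 / 8 := by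
  unfold nu
  have h : ((-3 + Complex.I * (Real.sqrt 7 : ℂ)) / 8 : ℂ) =
      ((-3 / 8 : ℝ) : ℂ) + ((Real.sqrt 7 / 8 : ℝ) : ℂ) * Complex.I := by
    push_cast
    ring
  rw [h]
  simp

lemma nu_nsq : Complex.normSq nu = 1 / 4 := by
  rw [Complex.normSq_apply, nu_re, nu_im]
  have := sq7
  linear_combination this / 64

lemma nu_norm : ‖nu‖ = 1 / 2 := by
  have h := nu_nsq
  rw [Complex.normSq_eq_norm_sq] at h
  have h0 := norm_nonneg nu
  nlinarith

lemma log_re_nsq (z : ℂ) : (Complex.log z).re = Real.log (Complex.normSq z) / 2 := by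
  rw [Complex.log_re, Complex.normSq_eq_norm_sq, Real.log_pow]
  push_cast
  ring

lemma ser_re (z : ℂ) (hz : ‖z‖ < 1) :
    HasSum (fun k : ℕ => (z ^ (k + 1)).re / ((k : ℝ) + 1)) (-(Real.log (Complex.normSq (1 - z)) / 2)) := by
  have h1 := Complex.hasSum_taylorSeries_neg_log hz
  have h2 := Complex.hasSum_re h1
  have h3 := (hasSum_nat_add_iff' 1).2 h2
  have h4 : (-Complex.log (1 - z)).re - ∑ i ∈ Finset.range 1, (z ^ i / (i : ℂ)).re =
      -(Real.log (Complex.normSq (1 - z)) / 2) := by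
    rw [Complex.neg_re, log_re_nsq]
    simp
  rw [h4] at h3
  refine h3.congr_fun ?_
  intro k
  have h5 : (z ^ (k + 1) / ((k + 1 : ℕ) : ℂ)) = (z ^ (k + 1)) / (((k : ℝ) + 1 : ℝ) : ℂ) := by
    push_cast
    ring
  rw [h5, Complex.div_ofReal_re]

lemma ser_real (x : ℝ) (hx : |x| < 1) :
    HasSum (fun k : ℕ => x ^ (k + 1) / ((k : ℝ) + 1)) (-Real.log (1 - x)) :=
  Real.hasSum_pow_div_log_of_abs_lt_one hx

lemma re_sq (z : ℂ) : z.re ^ 2 = ((z ^ 2).re + Complex.normSq z) / 2 := by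
  rw [Complex.normSq_apply, pow_two z, Complex.mul_re]
  ring

lemma term_eq (k : ℕ) : lam k * (tau k - 1) ^ 2 =
    (25 / 2) * ((1 / 8 : ℝ) ^ (k + 1) / ((k : ℝ) + 1)) +
    30 * (((nu / 2) ^ (k + 1)).re / ((k : ℝ) + 1)) +
    9 * (((2 * nu ^ 2) ^ (k + 1)).re / ((k : ℝ) + 1)) +
    9 * ((1 / 2 : ℝ) ^ (k + 1) / ((k : ℝ) + 1)) := by
  unfold lam tau
  have h1 : ((nu / 2) ^ (k + 1)).re = (1 / 2 : ℝ) ^ (k + 1) * (nu ^ (k + 1)).re := by
    have : (nu / 2) ^ (k + 1) = (((1 / 2 : ℝ) ^ (k + 1) : ℝ) : ℂ) * nu ^ (k + 1) := by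
      push_cast
      rw [← mul_pow]
      ring
    rw [this, Complex.re_ofReal_mul]
  have h2 : ((2 * nu ^ 2) ^ (k + 1)).re = (2 : ℝ) ^ (k + 1) * ((nu ^ (k + 1)) ^ 2).re := by
    have : (2 * nu ^ 2) ^ (k + 1) = (((2 : ℝ) ^ (k + 1) : ℝ) : ℂ) * (nu ^ (k + 1)) ^ 2 := by
      push_cast
      rw [mul_pow]
      ring
    rw [this, Complex.re_ofReal_mul]
  have h3 : ((nu ^ (k + 1)) ^ 2).re = 2 * (nu ^ (k + 1)).re ^ 2 - (1 / 4) ^ (k + 1) := by
    have h4 := re_sq (nu ^ (k + 1))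
    rw [map_pow, nu_nsq] at h4
    linarith
  have hk : ((k : ℝ) + 1) ≠ 0 := by positivity
  have e1 : (2 : ℝ) ^ (k + 1) * (1 / 4) ^ (k + 1) = (1 / 2) ^ (k + 1) := by
    rw [← mul_pow]; norm_num
  have e2 : (1 / 4 : ℝ) ^ (k + 1) * (1 / 2) ^ (k + 1) = (1 / 8) ^ (k + 1) := by
    rw [← mul_pow]; norm_num
  rw [h1, h2, h3]
  rw [← e2, ← e1]
  field_simp
  ring

theorem SER : ST_SER := by
  have s1 := (ser_real (1 / 8) (by norm_num [abs_of_pos])).mul_left (25 / 2)
  have s4 := (ser_real (1 / 2) (by norm_num [abs_of_pos])).mul_left 9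
  have n2 : ‖nu / 2‖ < 1 := by
    rw [norm_div, nu_norm]; norm_num
  have n3 : ‖2 * nu ^ 2‖ < 1 := by
    rw [norm_mul, norm_pow, nu_norm]; norm_num
  have s2 := (ser_re (nu / 2) n2).mul_left 30
  have s3 := (ser_re (2 * nu ^ 2) n3).mul_left 9
  have v2 : Complex.normSq (1 - nu / 2) = 23 / 16 := by
    have e : (1 - nu / 2) = ((19 / 16 : ℝ) : ℂ) + ((-(Real.sqrt 7) / 16 : ℝ) : ℂ) * Complex.I := by
      unfold nu
      push_cast
      ring
    rw [e, Complex.normSq_add_mul_I]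
    linear_combination sq7 / 256
  have v3 : Complex.normSq (1 - 2 * nu ^ 2) = 9 / 8 := by
    have hc : ((Real.sqrt 7 : ℝ) : ℂ) * ((Real.sqrt 7 : ℝ) : ℂ) = 7 := by
      rw [← Complex.ofReal_mul, sq7]; norm_num
    have e : (1 - 2 * nu ^ 2) = ((15 / 16 : ℝ) : ℂ) + ((3 * (Real.sqrt 7) / 16 : ℝ) : ℂ) * Complex.I := by
      unfold nu
      push_cast
      have hI := Complex.I_mul_I
      linear_combination (-(1 / 32 : ℂ)) * (((Real.sqrt 7 : ℝ) : ℂ) * ((Real.sqrt 7 : ℝ) : ℂ)) * hI +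
        (1 / 32 : ℂ) * hc
    rw [e, Complex.normSq_add_mul_I]
    linear_combination 9 * sq7 / 256
  rw [v2] at s2
  rw [v3] at s3
  have S := ((s1.add s2).add s3).add s4
  have S' : HasSum (fun k : ℕ => lam k * (tau k - 1) ^ 2)
      (25 / 2 * -Real.log (1 - 1 / 8) + 30 * -(Real.log (23 / 16) / 2) + 9 * -(Real.log (9 / 8) / 2) +
        9 * -Real.log (1 - 1 / 2)) := by
    refine S.congr_fun ?_
    intro k
    exact term_eq k
  have hP : 0 < Pi2 := by unfold Pi2; positivity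
  have hlog : Real.log Pi2 = 25 * Real.log (7 / 8) + 30 * Real.log (23 / 16) + 9 * Real.log (9 / 8) +
      18 * Real.log (1 / 2) := by
    unfold Pi2
    rw [Real.log_mul (by positivity) (by positivity), Real.log_mul (by positivity) (by positivity),
      Real.log_mul (by positivity) (by positivity), Real.log_pow, Real.log_pow, Real.log_pow, Real.log_pow]
    push_cast
    ring
  have htau : ∀ k : ℕ, 1 ≤ k → 1 / 2 ≤ tau k := by
    intro k hk
    have c1 : tau k = 1 + 5 * (1 / 4) ^ (k + 1) + 6 * (nu ^ (k + 1)).re := rfl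
    by_cases h3 : 3 ≤ k
    · have hb : |(nu ^ (k + 1)).re| ≤ (1 / 2) ^ (k + 1) := by
        have := Complex.abs_re_le_norm (nu ^ (k + 1))
        rwa [norm_pow, nu_norm] at this
      have hb2 : ((1 / 2 : ℝ)) ^ (k + 1) ≤ (1 / 2) ^ 4 :=
        pow_le_pow_of_le_one (by norm_num) (by norm_num) (by omega)
      have hb3 : (0 : ℝ) ≤ (1 / 4) ^ (k + 1) := by positivity
      have hb4 := neg_abs_le ((nu ^ (k + 1)).re)
      rw [c1]
      norm_num at hb2
      linarith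
    · have hr : (nu ^ 2).re = 1 / 32 := by
        rw [pow_two, Complex.mul_re, nu_re, nu_im]
        linear_combination -sq7 / 64
      have hi : (nu ^ 2).im = -3 * Real.sqrt 7 / 32 := by
        rw [pow_two, Complex.mul_im, nu_re, nu_im]
        ring
      have hr3 : (nu ^ 3).re = 9 / 128 := by
        rw [pow_succ, Complex.mul_re, nu_re, nu_im, hr, hi]
        linear_combination 3 * sq7 / 256
      have hk2 : k = 1 ∨ k = 2 := by omega
      rcases hk2 with rfl | rfl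
      · rw [c1]
        norm_num [hr]
      · rw [c1]
        norm_num [hr3]
  refine ⟨S'.summable, ?_, ?_, htau⟩
  · rw [S'.tsum_eq]
    have e1 : (25 / 2 * -Real.log (1 - 1 / 8) + 30 * -(Real.log (23 / 16) / 2) +
        9 * -(Real.log (9 / 8) / 2) + 9 * -Real.log (1 - 1 / 2)) = -(Real.log Pi2) / 2 := by
      rw [hlog]
      norm_num
      ring
    rw [e1]
    have e2 : Real.exp (-(Real.log Pi2) / 2) ^ 2 = 1 / Pi2 := by
      rw [← Real.exp_nat_mul]
      have : ((2 : ℕ) : ℝ) * (-(Real.log Pi2) / 2) = -(Real.log Pi2) := by push_cast; ring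
      rw [this, Real.exp_neg, Real.exp_log hP, one_div]
    rw [← e2, Real.sqrt_sq (Real.exp_pos _).le]
  · intro k
    by_cases hk : 1 ≤ k
    · have := htau k hk
      linarith
    · have hk0 : k = 0 := by omega
      subst hk0
      unfold tau
      norm_num [nu_re]

end Pool.Agent.Helper8.T4
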