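import Pool.Agent.Helper15.T4.Stmts

set_option autoImplicit false

open Finset

namespace Pool.Agent.Helper8.T4
open Pool.Agent.Helper15.T4

theorem STR : ST_STR := by
  classical
  intro n k c hc
  obtain ⟨hinj, hab⟩ := hc
  have hv : ∀ i j, (c i).1 = (c j).1 → i = j := fun i j h => hinj h
  set e : Fin (k + 1) → Sym2 (HE n) :=
    fun i => s(((c i).1, (c i).2.2), ((c (i + 1)).1, (c (i + 1)).2.1)) with he
  have hmem : ∀ i h, h ∈ e i ↔ h = ((c i).1, (c i).2.2) ∨ h = ((c (i + 1)).1, (c (i + 1)).2.1) := by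
    intro i h
    simp only [he, Sym2.mem_iff]
  have hba : ∀ i j, ((c i).1, (c i).2.2) ≠ ((c j).1, (c j).2.1) := by
    intro i j h
    have h1 := hv i j (Prod.mk.inj h).1
    subst h1
    exact hab i (Prod.mk.inj h).2.symm
  have hE : ∀ x, x ∈ E c ↔ ∃ i, e i = x := by
    intro x
    simp only [E, mem_image, mem_univ, true_and, he]
  have hdis : ∀ i j h, h ∈ e i → h ∈ e j → i = j := by
    intro i j h h1 h2
    rw [hmem] at h1 h2
    rcases h1 with h1 | h1 <;> rcases h2 with h2 | h2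
    · exact hv i j (Prod.mk.inj (h1.symm.trans h2)).1
    · exact absurd (h1.symm.trans h2) (hba _ _)
    · exact absurd (h2.symm.trans h1) (hba _ _)
    · have h3 := hv _ _ (Prod.mk.inj (h1.symm.trans h2)).1
      exact add_right_cancel h3
  have hcov : ∀ h : HE n, h ∈ cov (E c) ↔ ∃ i, h ∈ e i := by
    intro h
    simp only [cov, mem_filter, mem_univ, true_and]
    constructor
    · rintro ⟨x, hx, hh⟩
      obtain ⟨i, rfl⟩ := (hE x).1 hx
      exact ⟨i, hh⟩
    · rintro ⟨i, hh⟩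
      exact ⟨e i, (hE _).2 ⟨i, rfl⟩, hh⟩
  have hcov2 : ∀ h : HE n, h ∈ cov (E c) ↔ ∃ i, h = ((c i).1, (c i).2.1) ∨ h = ((c i).1, (c i).2.2) := by
    intro h
    rw [hcov]
    constructor
    · rintro ⟨i, hh⟩
      rcases (hmem i h).1 hh with h1 | h1
      · exact ⟨i, Or.inr h1⟩
      · exact ⟨i + 1, Or.inl h1⟩
    · rintro ⟨i, h1 | h1⟩
      · refine ⟨i - 1, (hmem _ h).2 (Or.inr ?_)⟩
        rw [sub_add_cancel]
        exact h1
      · exact ⟨i, (hmem _ h).2 (Or.inl h1)⟩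
  have hvs : (vs c).card = k + 1 := by
    unfold vs
    rw [card_image_of_injective _ hinj, card_univ, Fintype.card_fin]
  have heinj : Function.Injective e := by
    intro i j hij
    have h1 : ((c i).1, (c i).2.2) ∈ e i := (hmem _ _).2 (Or.inl rfl)
    exact hdis i j _ h1 (hij ▸ h1)
  refine ⟨⟨?_, ?_, ?_⟩, ?_, ?_, hvs, hcov2⟩
  · intro x hx
    obtain ⟨i, rfl⟩ := (hE x).1 hx
    simp only [he, Sym2.mk_isDiag_iff]
    exact hba i (i + 1)
  · intro x hx h hh
    obtain ⟨i, rfl⟩ := (hE x).1 hx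
    exact (hcov h).2 ⟨i, hh⟩
  · intro h hh
    obtain ⟨i, hi⟩ := (hcov h).1 hh
    refine ⟨e i, ⟨(hE _).2 ⟨i, rfl⟩, hi⟩, ?_⟩
    rintro y ⟨hy, hhy⟩
    obtain ⟨j, rfl⟩ := (hE y).1 hy
    rw [hdis i j h hi hhy]
  · have h1 : E c = univ.image e := by
      ext x
      rw [hE x]
      simp only [mem_image, mem_univ, true_and]
    rw [h1, card_image_of_injective _ heinj, card_univ, Fintype.card_fin]
  · ext v
    simp only [tv, vs, mem_image, mem_univ, true_and]
    constructor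
    · rintro ⟨h, hh, rfl⟩
      obtain ⟨i, h1 | h1⟩ := (hcov2 h).1 hh
      · exact ⟨i, by rw [h1]⟩
      · exact ⟨i, by rw [h1]⟩
    · rintro ⟨i, rfl⟩
      exact ⟨((c i).1, (c i).2.1), (hcov2 _).2 ⟨i, Or.inl rfl⟩, rfl⟩

end Pool.Agent.Helper8.T4
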